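import Pool.Agent.helper23.CO.SpecC

/-!
# Row ERK of project co (MP_7c3fb3_pr, owner helper23)
-/

open Finset Filter Topology

namespace CO

open CU

theorem ERK_fo {d n : ℕ} [NeZero n] (x : Site d n) (σ : Conf d n) :
    fo {x} σ = {Function.update σ x true, Function.update σ x false} := by
  classical
  ext η
  rw [fo, Finset.mem_filter, Finset.mem_insert, Finset.mem_singleton]
  constructor
  · rintro ⟨-, h⟩
    cases hb : η x with
    | true =>
      left
      funext y
      by_cases hy : y = x
      · subst hy
        rw [Function.update_self, hb]
      · rw [Function.update_of_ne hy]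
        exact h y (by simpa using hy)
    | false =>
      right
      funext y
      by_cases hy : y = x
      · subst hy
        rw [Function.update_self, hb]
      · rw [Function.update_of_ne hy]
        exact h y (by simpa using hy)
  · rintro (h | h)
    · refine ⟨Finset.mem_univ _, fun y hy => ?_⟩
      rw [h, Function.update_of_ne (by simpa using hy)]
    · refine ⟨Finset.mem_univ _, fun y hy => ?_⟩
      rw [h, Function.update_of_ne (by simpa using hy)]

theorem ERK_ne {d n : ℕ} (x : Site d n) (σ : Conf d n) :
    Function.update σ x true ≠ Function.update σ x false := by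
  intro h
  have h1 := congrFun h x
  rw [Function.update_self, Function.update_self] at h1
  exact Bool.noConfusion h1

theorem ERK : ERK_stmt := by
  intro d n _ β f
  refine ⟨?_, ?_⟩
  · intro x σ
    unfold Kx ER
    rw [ERK_fo, Finset.sum_pair (ERK_ne x σ), Finset.sum_pair (ERK_ne x σ)]
  · intro D
    unfold ExD ER
    have h : PlusOn D = fo D (plus : Conf d n) := rfl
    rw [h]

end CO
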