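import Pool.Agent.helper23.CO.SpecC

/-!
# Row MAN of project co (MP_7c3fb3_pr, owner helper23)
-/

open Finset Filter Topology

namespace CO

open CU

/-- The defect `1 - 2 P(Mg ≥ 2)`. -/
theorem MAN_zeta (hLIN : CU.LIN_stmt) (hFLP : CU.FLP_stmt) {d n : ℕ} [NeZero n] (β κ : ℝ)
    (hκ : 2 / (Fintype.card (Site d n) : ℝ) ≤ κ) :
    1 - 2 * PrE β {σ : Conf d n | 2 ≤ Mg σ} ≤
      PrE β {σ : Conf d n | |Mg σ / (Fintype.card (Site d n) : ℝ)| ≤ κ} := by
  classical
  have hlin : ∀ (f g : Conf d n → ℝ) (a b : ℝ),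
      Ex β (fun σ => a * f σ + b * g σ) = a * Ex β f + b * Ex β g :=
    fun f g a b => (hLIN d n β f g a b 0).2.2.1
  have hmono : ∀ (f g : Conf d n → ℝ), (∀ σ, f σ ≤ g σ) → Ex β f ≤ Ex β g :=
    fun f g => (hLIN d n β f g 0 0 0).2.2.2.1
  have hconst : ∀ a : ℝ, Ex β (fun _ : Conf d n => a) = a :=
    fun a => (hLIN d n β (fun _ => 0) (fun _ => 0) a 0 0).2.2.2.2
  have hflip : ∀ f : Conf d n → ℝ, Ex β (fun σ => f (flipc σ)) = Ex β f :=
    fun f => (hFLP d n β f 0).2.1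
  have hMg : ∀ σ : Conf d n, Mg (flipc σ) = - Mg σ := fun σ => (hFLP d n β (fun _ => 0) 0).2.2 0 σ
  have hN : (0 : ℝ) < (Fintype.card (Site d n) : ℝ) := by
    exact_mod_cast Fintype.card_pos
  set A : Set (Conf d n) := {σ : Conf d n | 2 ≤ Mg σ} with hA
  set D : Set (Conf d n) := {σ : Conf d n | |Mg σ / (Fintype.card (Site d n) : ℝ)| ≤ κ} with hD
  set f : Conf d n → ℝ := A.indicator (fun _ => 1) with hf
  set g : Conf d n → ℝ := D.indicator (fun _ => 1) with hg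
  have hf0 : ∀ σ, 0 ≤ f σ := fun σ => Set.indicator_nonneg (fun _ _ => zero_le_one) σ
  have hg0 : ∀ σ, 0 ≤ g σ := fun σ => Set.indicator_nonneg (fun _ _ => zero_le_one) σ
  have hpt : ∀ σ : Conf d n, (1 : ℝ) ≤ 1 * (1 * f σ + 1 * f (flipc σ)) + 1 * g σ := by
    intro σ
    by_cases h1 : σ ∈ A
    · have : f σ = 1 := by rw [hf]; exact Set.indicator_of_mem h1 _
      have := hf0 (flipc σ)
      have := hg0 σ
      linarith
    · by_cases h2 : flipc σ ∈ A
      · have : f (flipc σ) = 1 := by rw [hf]; exact Set.indicator_of_mem h2 _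
        have := hf0 σ
        have := hg0 σ
        linarith
      · have h3 : σ ∈ D := by
          rw [hA, Set.mem_ofPred_eq, not_le] at h1 h2
          rw [hMg] at h2
          rw [hD, Set.mem_ofPred_eq, abs_div, abs_of_pos hN]
          refine le_trans ?_ hκ
          apply div_le_div_of_nonneg_right _ hN.le
          rw [abs_le]
          constructor <;> linarith
        have : g σ = 1 := by rw [hg]; exact Set.indicator_of_mem h3 _
        have := hf0 σ
        have := hf0 (flipc σ)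
        linarith
  have h1 := hmono _ _ hpt
  rw [hconst, hlin (fun σ => 1 * f σ + 1 * f (flipc σ)) g 1 1, hlin f (fun σ => f (flipc σ)) 1 1,
    hflip] at h1
  have e1 : PrE β A = Ex β f := rfl
  have e2 : PrE β D = Ex β g := rfl
  rw [e1, e2]
  linarith

/-- The arithmetic. -/
theorem MAN_num {N y c cb ζ E1 F2 s : ℝ} (hN : 1 ≤ N) (hy : 0 ≤ y) (hc : 0 < c) (hcb : 2 * c ≤ cb)
    (hζ : ζ ≤ Real.exp (-cb * y)) (hE : E1 = Real.exp (-c * y)) (hF : F2 = Real.exp (c / 2 * y))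
    (hs0 : 0 ≤ s) (hs : s ≤ 2 * Real.exp (cb / 4 * y)) (hsm : N * Real.exp (-(c / 4) * y) ≤ 1 / 160000) :
    ζ ≤ 1 / 5 ∧ 2 * s * ζ ≤ 1 / 10000 ∧
    √(F2 * (2 * N * (7 * E1 + 2 * N * ζ))) + N * ζ + 2 * E1 + 4 * N * s * ζ ≤ 1 / 10000 := by
  have hN0 : 0 ≤ N := by linarith
  set q : ℝ := Real.exp (-(c / 4) * y) with hq
  have hq0 : 0 < q := Real.exp_pos _
  have hqN : q ≤ N * q := by nlinarith
  have e1 : Real.exp (-cb * y) ≤ q := by
    rw [hq]
    apply Real.exp_le_exp.2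
    nlinarith
  have e2 : Real.exp (-c * y) ≤ q := by
    rw [hq]
    apply Real.exp_le_exp.2
    nlinarith
  have e3 : Real.exp (cb / 4 * y) * Real.exp (-cb * y) ≤ q := by
    rw [hq, ← Real.exp_add]
    apply Real.exp_le_exp.2
    nlinarith
  have hsζ : s * ζ ≤ 2 * q := by
    calc s * ζ ≤ s * Real.exp (-cb * y) := mul_le_mul_of_nonneg_left hζ hs0
      _ ≤ (2 * Real.exp (cb / 4 * y)) * Real.exp (-cb * y) :=
          mul_le_mul_of_nonneg_right hs (Real.exp_pos _).le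
      _ = 2 * (Real.exp (cb / 4 * y) * Real.exp (-cb * y)) := by ring
      _ ≤ 2 * q := by linarith
  have hζq : ζ ≤ q := hζ.trans e1
  refine ⟨by linarith, by linarith, ?_⟩
  -- the square root
  have hroot : √(F2 * (2 * N * (7 * E1 + 2 * N * ζ))) ≤ 5 * (N * q) := by
    apply Real.sqrt_le_iff.2
    refine ⟨by positivity, ?_⟩
    have h1 : 2 * N * ζ ≤ 2 * N * Real.exp (-c * y) := by
      apply mul_le_mul_of_nonneg_left _ (by positivity)
      refine hζ.trans (Real.exp_le_exp.2 ?_)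
      nlinarith
    have h2 : 7 * E1 + 2 * N * ζ ≤ 9 * N * Real.exp (-c * y) := by
      rw [hE]
      have : Real.exp (-c * y) ≤ N * Real.exp (-c * y) := by
        have := Real.exp_pos (-c * y)
        nlinarith
      nlinarith
    have h3 : 2 * N * (7 * E1 + 2 * N * ζ) ≤ 2 * N * (9 * N * Real.exp (-c * y)) :=
      mul_le_mul_of_nonneg_left h2 (by positivity)
    have h4 : F2 * (2 * N * (7 * E1 + 2 * N * ζ)) ≤ F2 * (2 * N * (9 * N * Real.exp (-c * y))) := by
      apply mul_le_mul_of_nonneg_left h3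
      rw [hF]
      exact (Real.exp_pos _).le
    have h5 : F2 * Real.exp (-c * y) = q ^ 2 := by
      rw [hF, hq, ← Real.exp_add, ← Real.exp_nat_mul]
      congr 1
      push_cast
      ring
    calc F2 * (2 * N * (7 * E1 + 2 * N * ζ)) ≤ F2 * (2 * N * (9 * N * Real.exp (-c * y))) := h4
      _ = 18 * N ^ 2 * (F2 * Real.exp (-c * y)) := by ring
      _ = 18 * N ^ 2 * q ^ 2 := by rw [h5]
      _ ≤ (5 * (N * q)) ^ 2 := by
          have : 0 ≤ N ^ 2 * q ^ 2 := by positivity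
          nlinarith
  have hNζ : N * ζ ≤ N * q := mul_le_mul_of_nonneg_left hζq hN0
  have hNsζ : 4 * N * s * ζ ≤ 8 * (N * q) := by
    calc 4 * N * s * ζ = 4 * N * (s * ζ) := by ring
      _ ≤ 4 * N * (2 * q) := mul_le_mul_of_nonneg_left hsζ (by positivity)
      _ = 8 * (N * q) := by ring
  have hE' : 2 * E1 ≤ 2 * (N * q) := by
    rw [hE]
    linarith
  linarith

theorem MAN (hNEA : NEA_stmt) (hFSB : FSB_stmt) (hLDM : LDM_stmt) (hHYA : HYA_stmt) (hMSP : MSP_stmt) (hNC : CU.NC_stmt) (hFN : CU.FN_stmt) (hLIN : CU.LIN_stmt) (hFLP : CU.FLP_stmt) : MAN_stmt := by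
  intro d β hd hβ hLC hms
  apply hFN d β hβ
  obtain ⟨cb, hcb, hLD⟩ := hLDM d β (ms d β / 2) hd hLC hms (by linarith)
  obtain ⟨ca, hca, hNE⟩ := hNEA d β (cb / 4) hd hβ hLC hms (by linarith)
  set c : ℝ := min ca (cb / 2) with hc
  have hc0 : 0 < c := lt_min hca (by linarith)
  have hc1 : c ≤ ca := min_le_left _ _
  have hc2 : 2 * c ≤ cb := by
    have : c ≤ cb / 2 := min_le_right _ _
    linarith
  have hFS := hFSB d β (cb / 4) (c / 2) hd hβ hLC hms (by linarith) (by linarith)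
  -- the limits
  have hlim1 : ∀ᶠ n : ℕ in atTop, ((n : ℝ) + 3) ^ d * Real.exp (-(c / 4) * ((n : ℝ) + 3)) ≤ 1 / 160000 := by
    have h1 := tendsto_rpow_mul_exp_neg_mul_atTop_nhds_zero (d : ℝ) (c / 4) (by linarith)
    have h2 : Tendsto (fun n : ℕ => (n : ℝ) + 3) atTop atTop :=
      tendsto_atTop_add_const_right _ _ tendsto_natCast_atTop_atTop
    have h3 := (h1.comp h2).eventually (ge_mem_nhds (show (0 : ℝ) < 1 / 160000 by norm_num))
    filter_upwards [h3] with n hn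
    simpa [Function.comp, Real.rpow_natCast] using hn
  have hlim2 : ∀ᶠ n : ℕ in atTop, 2 / ((n : ℝ) + 3) ^ d ≤ ms d β / 2 := by
    have h2 : Tendsto (fun n : ℕ => (n : ℝ) + 3) atTop atTop :=
      tendsto_atTop_add_const_right _ _ tendsto_natCast_atTop_atTop
    filter_upwards [h2.eventually_ge_atTop (4 / ms d β), h2.eventually_ge_atTop 1] with n hn hn1
    have h4 : (n : ℝ) + 3 ≤ ((n : ℝ) + 3) ^ d := le_self_pow₀ hn1 (by omega)
    have h5 : 4 / ms d β ≤ ((n : ℝ) + 3) ^ d := hn.trans h4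
    rw [div_le_iff₀ hms] at h5
    have h6 : (0 : ℝ) < ((n : ℝ) + 3) ^ d := by positivity
    rw [div_le_iff₀ h6]
    nlinarith
  filter_upwards [hLD, hNE, hFS, hlim1, hlim2] with n hLD hNE hFS hl1 hl2
  set y : ℝ := ((n : ℝ) + 3) ^ (d - 1) with hy
  have hcard : (Fintype.card (Site d (n + 3)) : ℝ) = ((n : ℝ) + 3) ^ d := by
    have h1 : Fintype.card (Site d (n + 3)) = (n + 3) ^ d := by
      simp [Site, ZMod.card]
    rw [h1]
    push_cast
    ring
  have hn3 : (1 : ℝ) ≤ (n : ℝ) + 3 := by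
    have : (0 : ℝ) ≤ n := Nat.cast_nonneg n
    linarith
  have hyn : (n : ℝ) + 3 ≤ y := le_self_pow₀ hn3 (by omega)
  have hy0 : 0 ≤ y := by positivity
  have hN1 : (1 : ℝ) ≤ (Fintype.card (Site d (n + 3)) : ℝ) := by
    rw [hcard]
    exact one_le_pow₀ hn3
  set s : ℕ := ⌈Real.exp (cb / 4 * y)⌉₊ with hs
  have hsge : Real.exp (cb / 4 * y) ≤ s := Nat.le_ceil _
  have hexp1 : 1 ≤ Real.exp (cb / 4 * y) := by
    apply Real.one_le_exp
    positivity
  have hs1 : 1 ≤ s := by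
    have : (1 : ℝ) ≤ s := hexp1.trans hsge
    exact_mod_cast this
  have hsle : (s : ℝ) ≤ 2 * Real.exp (cb / 4 * y) := by
    have := Nat.ceil_lt_add_one (Real.exp_pos (cb / 4 * y)).le
    rw [← hs] at this
    linarith
  obtain ⟨a, haN, haE⟩ := hNE s hsge
  have hFs := hFS s hsge
  have hζ : 1 - 2 * PrE β {σ : Conf d (n + 3) | 2 ≤ Mg σ} ≤ Real.exp (-cb * y) := by
    refine (MAN_zeta hLIN hFLP β (ms d β / 2) ?_).trans ?_
    · rw [hcard]
      exact hl2
    · have : ms d β - ms d β / 2 = ms d β / 2 := by ring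
      rw [this] at hLD
      exact hLD
  have hsm : (Fintype.card (Site d (n + 3)) : ℝ) * Real.exp (-(c / 4) * y) ≤ 1 / 160000 := by
    rw [hcard]
    refine le_trans (mul_le_mul_of_nonneg_left (Real.exp_le_exp.2 ?_) (by positivity)) hl1
    nlinarith
  obtain ⟨n1, n2, n3⟩ := MAN_num (N := (Fintype.card (Site d (n + 3)) : ℝ)) (y := y) (c := c)
    (cb := cb) (ζ := 1 - 2 * PrE β {σ : Conf d (n + 3) | 2 ≤ Mg σ}) (E1 := Real.exp (-c * y))
    (F2 := Real.exp (c / 2 * y)) (s := (s : ℝ)) hN1 hy0 hc0 hc2 hζ rfl rfl (Nat.cast_nonneg _) hsle hsm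
  have hHyp := hHYA d (n + 3) (by omega) β a (Real.exp (-c * y)) (Real.exp (c / 2 * y)) _ s hβ hs1 haN
    rfl n1 hFs (haE.trans (Real.exp_le_exp.2 (by nlinarith))) n2 n3
  exact hNC d (n + 3) (by omega) β hβ _ (2 * s) hHyp

end CO
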