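import Pool.Agent.helper23.CO.SpecB

/-!
# Row MLF of project co (MP_7c3fb3_pr, owner helper23)
-/

open Finset Filter Topology

namespace CO

open CU

/-- monotonicity of the two point function in the coupling -/
theorem MLF_mono (hLPI : LPI_stmt) {d n : ℕ} [NeZero n] (b b' : ℝ) (hb : 0 ≤ b') (hbb : b' ≤ b)
    (x : Site d n) : cT b' (fun _ => 0) 0 x ≤ cT b (fun _ => 0) 0 x := by
  have h := (hLPI (Site d n) (KT b fun _ => 0) (KT b' fun _ => 0) (fun _ => 0) (fun _ => 0) ?_ ?_).2.1 0 x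
  · exact (le_abs_self _).trans h
  · intro x y
    unfold KT
    have h0 : 0 ≤ ∑ i : Fin d, if y = x + ev i then (1 : ℝ) else 0 := by
      apply Finset.sum_nonneg
      intro i _
      split_ifs <;> norm_num
    rw [add_zero, add_zero, abs_of_nonneg (mul_nonneg hb h0)]
    exact mul_le_mul_of_nonneg_right hbb h0
  · intro x
    simp

theorem MLF (hLRO : LRO_stmt) (hLPI : LPI_stmt) (hFLD : FLD_stmt) (hMSP : MSP_stmt) : MLF_stmt := by
  intro d β κ lam hd hLC hms hκ hlam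
  set κ₀ : ℝ := min κ (ms d β) with hκ₀
  have hκ₀0 : 0 < κ₀ := lt_min hκ hms
  have hκ₀1 : κ₀ ≤ κ := min_le_left _ _
  have hκ₀2 : κ₀ ≤ ms d β := min_le_right _ _
  set κ₁ : ℝ := κ₀ * ms d β / 4 with hκ₁
  have hκ₁0 : 0 < κ₁ := by positivity
  obtain ⟨β', hβ'0, hβ'β, hev⟩ := hLRO d β κ₁ hd hLC hms hκ₁0
  have hβ0 : 0 ≤ β := hβ'0.trans hβ'β.le
  have h2 : Tendsto (fun n : ℕ => (n : ℝ) + 3) atTop atTop :=
    tendsto_atTop_add_const_right _ _ tendsto_natCast_atTop_atTop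
  filter_upwards [hev, h2.eventually_ge_atTop (|Real.log (2 / κ₁)| / (lam * (κ₀ / 2)))] with n hn hn2
  have hn3 : (1 : ℝ) ≤ (n : ℝ) + 3 := by
    have : (0 : ℝ) ≤ n := Nat.cast_nonneg n
    linarith
  have hn0 : (0 : ℝ) < (n : ℝ) + 3 := by linarith
  have hcard : ((univ : Finset (Site d (n + 3))).card : ℝ) = ((n : ℝ) + 3) ^ d := by
    have h1 : (univ : Finset (Site d (n + 3))).card = (n + 3) ^ d := by
      rw [Finset.card_univ]
      simp [Site, ZMod.card]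
    rw [h1]
    push_cast
    ring
  have hF := hFLD d (n + 3) (by omega) β (lam / ((n : ℝ) + 3)) (ms d β ^ 2 - κ₁) κ₁ univ hβ0
    (by positivity) hκ₁0 (by
      rw [hκ₁]
      nlinarith) Finset.univ_nonempty
    (fun x _ y _ => (hn (y - x)).trans (MLF_mono hLPI β β' hβ'0 hβ'β.le (y - x)))
  have hroot : ms d β - κ₀ / 2 ≤ √(ms d β ^ 2 - κ₁ - κ₁) := by
    apply Real.le_sqrt_of_sq_le
    rw [hκ₁]
    nlinarith
  have hlog : Real.log (2 / κ₁) / (lam / ((n : ℝ) + 3) * ((univ : Finset (Site d (n + 3))).card : ℝ)) ≤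
      κ₀ / 2 := by
    rw [hcard]
    obtain ⟨e, rfl⟩ : ∃ e, d = e + 1 := ⟨d - 1, by omega⟩
    have e1 : lam / ((n : ℝ) + 3) * ((n : ℝ) + 3) ^ (e + 1) = lam * ((n : ℝ) + 3) ^ e := by
      rw [pow_succ]
      field_simp
    rw [e1]
    have e2 : (n : ℝ) + 3 ≤ ((n : ℝ) + 3) ^ e := le_self_pow₀ hn3 (by omega)
    have e3 : 0 < lam * ((n : ℝ) + 3) ^ e := by positivity
    rw [div_le_iff₀ e3]
    have e4 : |Real.log (2 / κ₁)| ≤ ((n : ℝ) + 3) * (lam * (κ₀ / 2)) := by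
      rwa [div_le_iff₀ (by positivity)] at hn2
    calc Real.log (2 / κ₁) ≤ |Real.log (2 / κ₁)| := le_abs_self _
      _ ≤ ((n : ℝ) + 3) * (lam * (κ₀ / 2)) := e4
      _ ≤ ((n : ℝ) + 3) ^ e * (lam * (κ₀ / 2)) := mul_le_mul_of_nonneg_right e2 (by positivity)
      _ = κ₀ / 2 * (lam * ((n : ℝ) + 3) ^ e) := by ring
  linarith

end CO
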