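import Pool.Agent.helper23.CO.SpecC

/-!
# Row UVB of project co (MP_7c3fb3_pr, owner helper23)
-/

open Finset Filter Topology

namespace CO

open CU

theorem UVB_sum {d n : ℕ} [NeZero n] (β C : ℝ) (R : Finset (Site d n)) (F : Site d n → Conf d n → ℝ) :
    Ex β (fun σ => C * ∑ x ∈ R, F x σ) = C * ∑ x ∈ R, Ex β (F x) := by
  unfold Ex
  rw [← Finset.sum_div, mul_div_assoc']
  congr 1
  rw [Finset.sum_comm, Finset.mul_sum]
  refine Finset.sum_congr rfl (fun σ _ => ?_)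
  rw [← Finset.mul_sum]
  ring

theorem UVB_mono (hERA : ERA_stmt) (hERT : ERT_stmt) {d n : ℕ} [NeZero n] (β : ℝ) (f g : Conf d n → ℝ)
    (h : ∀ σ, f σ ≤ g σ) : Ex β f ≤ Ex β g := by
  rw [(hERT d n β univ f f).2.1 plus, (hERT d n β univ g g).2.1 plus]
  exact (hERA d n β univ).1 f g plus (fun η _ => h η)

theorem UVB_cs (hERA : ERA_stmt) (hERT : ERT_stmt) {d n : ℕ} [NeZero n] (β : ℝ) (f : Conf d n → ℝ) :
    Ex β (fun σ => |f σ|) ≤ √(Ex β (fun σ => f σ ^ 2)) := by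
  apply Real.le_sqrt_of_sq_le
  rw [(hERT d n β univ (fun σ => |f σ|) f).2.1 plus, (hERT d n β univ (fun σ => f σ ^ 2) f).2.1 plus]
  have h := ((hERA d n β univ).2.2.2.2.2 (fun σ => |f σ|) plus).2
  refine h.trans (le_of_eq ?_)
  congr 1
  funext η
  exact sq_abs (f η)

theorem UVB_main (hERA : ERA_stmt) (hERT : ERT_stmt) {d n : ℕ} [NeZero n] (β C : ℝ)
    (R : Finset (Site d n)) (f : Conf d n → ℝ) (hC : 0 ≤ C) (hP : Poi β R C) :
    Ex β (fun σ => |f σ - ER β R f σ|) ≤ √(C * ∑ x : Site d n, Ex β (fun σ => (f σ - Kx β x f σ) ^ 2)) := by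
  refine (UVB_cs hERA hERT β (fun σ => f σ - ER β R f σ)).trans (Real.sqrt_le_sqrt ?_)
  have h1 : Ex β (fun σ => (f σ - ER β R f σ) ^ 2) =
      Ex β (ER β R (fun σ => (f σ - ER β R f σ) ^ 2)) :=
    ((hERT d n β R (fun σ => (f σ - ER β R f σ) ^ 2) f).2.2.1).symm
  rw [h1]
  have h2 : Ex β (ER β R (fun σ => (f σ - ER β R f σ) ^ 2)) ≤
      Ex β (fun σ => C * ∑ x ∈ R, ER β R (fun η => (f η - Kx β x f η) ^ 2) σ) :=
    UVB_mono hERA hERT β _ _ (fun σ => hP f σ)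
  refine h2.trans ?_
  rw [UVB_sum β C R (fun x σ => ER β R (fun η => (f η - Kx β x f η) ^ 2) σ)]
  apply mul_le_mul_of_nonneg_left _ hC
  have h3 : ∀ x : Site d n, Ex β (fun σ => ER β R (fun η => (f η - Kx β x f η) ^ 2) σ) =
      Ex β (fun σ => (f σ - Kx β x f σ) ^ 2) :=
    fun x => (hERT d n β R (fun η => (f η - Kx β x f η) ^ 2) f).2.2.1
  rw [Finset.sum_congr rfl (fun x _ => h3 x)]
  apply Finset.sum_le_sum_of_subset_of_nonneg (Finset.subset_univ _)
  intro x _ _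
  have h4 : Ex β (fun _ : Conf d n => (0 : ℝ)) ≤ Ex β (fun σ => (f σ - Kx β x f σ) ^ 2) :=
    UVB_mono hERA hERT β _ _ (fun σ => sq_nonneg _)
  have h5 : Ex β (fun _ : Conf d n => (0 : ℝ)) = 0 := by
    unfold Ex
    simp
  rw [h5] at h4
  exact h4

theorem UVB (hERA : ERA_stmt) (hERT : ERT_stmt) : UVB_stmt := by
  intro d n _ β C S R f hC hS hR
  have h1 := UVB_main hERA hERT β C S f hC hS
  have h2 := UVB_main hERA hERT β C R f hC hR
  refine ⟨h1, ?_⟩
  have h3 : Ex β (fun σ => |ER β S f σ - ER β R f σ|) ≤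
      Ex β (fun σ => |f σ - ER β S f σ| + |f σ - ER β R f σ|) := by
    apply UVB_mono hERA hERT
    intro σ
    have : ER β S f σ - ER β R f σ = (f σ - ER β R f σ) - (f σ - ER β S f σ) := by ring
    rw [this]
    refine (abs_sub _ _).trans (le_of_eq ?_)
    ring
  have h4 : Ex β (fun σ => |f σ - ER β S f σ| + |f σ - ER β R f σ|) =
      Ex β (fun σ => |f σ - ER β S f σ|) + Ex β (fun σ => |f σ - ER β R f σ|) := by
    unfold Ex
    rw [← add_div, ← Finset.sum_add_distrib]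
    congr 1
    exact Finset.sum_congr rfl (fun σ _ => mul_add _ _ _)
  rw [h4] at h3
  linarith

end CO
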